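import Pool.Agent.W940.LSD.Stm

/-!
# Project LS, part DENS: the second moment of the character sum
-/

set_option autoImplicit false

namespace Pool.Agent.W377.LSD

open Finset Filter Pool.Agent.W307.LS Pool.Agent.W940.LSD

open scoped Classical

/-- the number of solutions of a congruence in an interval -/
theorem cnt (T : ℕ) (m : ℕ) (hm : 0 < m) (a : ℤ) :
    |(((Icc (-(T : ℤ)) T).filter (fun b : ℤ => (m : ℤ) ∣ a - b)).card : ℝ) -
      (2 * (T : ℝ) + 1) / m| ≤ 1 := by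
  have hset : (Icc (-(T : ℤ)) T).filter (fun b : ℤ => (m : ℤ) ∣ a - b) =
      (Ioc (-(T : ℤ) - 1) T).filter (fun b : ℤ => b ≡ a [ZMOD (m : ℤ)]) := by
    ext b
    simp only [mem_filter, mem_Icc, mem_Ioc, Int.modEq_iff_dvd]
    constructor
    · rintro ⟨⟨h1, h2⟩, h3⟩
      exact ⟨⟨by omega, h2⟩, h3⟩
    · rintro ⟨⟨h1, h2⟩, h3⟩
      exact ⟨⟨by omega, h2⟩, h3⟩
  have hc := Int.Ioc_filter_modEq_card (-(T : ℤ) - 1) T (r := (m : ℤ)) (by exact_mod_cast hm) a
  rw [hset]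
  have hmq : (0 : ℚ) < m := by exact_mod_cast hm
  have hcq : |((((Ioc (-(T : ℤ) - 1) T).filter (fun b : ℤ => b ≡ a [ZMOD (m : ℤ)])).card : ℤ) : ℚ) -
      (2 * (T : ℚ) + 1) / m| ≤ 1 := by
    have h1 := Int.floor_le ((((T : ℤ) : ℚ) - a) / ((m : ℤ) : ℚ))
    have h2 := Int.lt_floor_add_one ((((T : ℤ) : ℚ) - a) / ((m : ℤ) : ℚ))
    have h3 := Int.floor_le (((((-(T : ℤ) - 1 : ℤ)) : ℚ) - a) / ((m : ℤ) : ℚ))
    have h4 := Int.lt_floor_add_one (((((-(T : ℤ) - 1 : ℤ)) : ℚ) - a) / ((m : ℤ) : ℚ))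
    have h5 : (((T : ℤ) : ℚ) - a) / ((m : ℤ) : ℚ) - ((((-(T : ℤ) - 1 : ℤ)) : ℚ) - a) / ((m : ℤ) : ℚ) =
        (2 * (T : ℚ) + 1) / m := by
      push_cast
      field_simp
      ring
    have h6 : (0 : ℚ) ≤ (2 * (T : ℚ) + 1) / m := by positivity
    set F1 := ⌊(((T : ℤ) : ℚ) - a) / ((m : ℤ) : ℚ)⌋ with hF1
    set F2 := ⌊((((-(T : ℤ) - 1 : ℤ)) : ℚ) - a) / ((m : ℤ) : ℚ)⌋ with hF2
    have h7 : (0 : ℤ) ≤ F1 - F2 := by
      have : (-1 : ℚ) < ((F1 - F2 : ℤ) : ℚ) := by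
        push_cast
        linarith
      have : (-1 : ℤ) < F1 - F2 := by exact_mod_cast this
      omega
    rw [hc, max_eq_left h7]
    rw [abs_le]
    push_cast
    constructor <;> linarith
  have := hcq
  rw [abs_le] at this ⊢
  obtain ⟨h1, h2⟩ := this
  constructor
  · have : ((-1 : ℚ) : ℝ) ≤ ((((((Ioc (-(T : ℤ) - 1) T).filter (fun b : ℤ => b ≡ a [ZMOD (m : ℤ)])).card : ℤ) : ℚ) -
      (2 * (T : ℚ) + 1) / m : ℚ) : ℝ) := by exact_mod_cast h1
    push_cast at this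
    exact this
  · have : ((((((Ioc (-(T : ℤ) - 1) T).filter (fun b : ℤ => b ≡ a [ZMOD (m : ℤ)])).card : ℤ) : ℚ) -
      (2 * (T : ℚ) + 1) / m : ℚ) : ℝ) ≤ ((1 : ℚ) : ℝ) := by exact_mod_cast h2
    push_cast at this
    exact this

/-- the Jacobi symbol as a function on residues -/
theorem jval (m : ℕ) [NeZero m] (n : ℤ) :
    jacobiSym n m = jacobiSym (((n : ZMod m)).val : ℤ) m := by
  rw [ZMod.val_intCast, ← jacobiSym.mod_left]

/-- a residue with Jacobi symbol `-1` -/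
theorem exneg (p q : ℕ) (hp : p.Prime) (hq : q.Prime) (hp2 : p ≠ 2) (hpq : p ≠ q) :
    ∃ c : ℕ, Nat.Coprime c (p * q) ∧ jacobiSym (c : ℤ) (p * q) = -1 := by
  haveI := Fact.mk hp
  haveI := Fact.mk hq
  obtain ⟨u, hu⟩ := quadraticChar_exists_neg_one (F := ZMod p) (by rw [ZMod.ringChar_zmod_n]; exact hp2)
  have hco : Nat.Coprime p q := (Nat.coprime_primes hp hq).2 hpq
  obtain ⟨k, hk1, hk2⟩ := Nat.chineseRemainder hco u.val 1
  have hJ1 : jacobiSym (k : ℤ) p = -1 := by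
    rw [← jacobiSym.legendreSym.to_jacobiSym, legendreSym]
    have : (((k : ℤ)) : ZMod p) = u := by
      have := (ZMod.natCast_eq_natCast_iff k u.val p).2 hk1
      rw [ZMod.natCast_zmod_val] at this
      push_cast
      exact this
    rw [this, hu]
  have hJ2 : jacobiSym (k : ℤ) q = 1 := by
    rw [← jacobiSym.legendreSym.to_jacobiSym, legendreSym]
    have : (((k : ℤ)) : ZMod q) = 1 := by
      have := (ZMod.natCast_eq_natCast_iff k 1 q).2 hk2
      push_cast at this ⊢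
      exact this
    rw [this, map_one]
  refine ⟨k, ?_, ?_⟩
  · have h : jacobiSym (k : ℤ) (p * q) ≠ 0 := by
      rw [jacobiSym.mul_right, hJ1, hJ2]
      norm_num
    haveI : NeZero (p * q) := ⟨Nat.mul_ne_zero hp.ne_zero hq.ne_zero⟩
    have h2 := mt (jacobiSym.eq_zero_iff_not_coprime (a := (k : ℤ)) (b := p * q)).2 h
    rw [not_not] at h2
    simpa [Int.gcd, Nat.Coprime, Int.natAbs_mul] using h2
  · rw [jacobiSym.mul_right, hJ1, hJ2]
    norm_num

/-- the sum of the Jacobi symbol over the residues -/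
theorem sumz (p q : ℕ) (hp : p.Prime) (hq : q.Prime) (hp2 : p ≠ 2) (hpq : p ≠ q)
    [NeZero (p * q)] :
    ∑ x : ZMod (p * q), jacobiSym (x.val : ℤ) (p * q) = 0 := by
  obtain ⟨c, hc, hJ⟩ := exneg p q hp hq hp2 hpq
  let cu : (ZMod (p * q))ˣ := ZMod.unitOfCoprime c hc
  have hcu : (cu : ZMod (p * q)) = (c : ZMod (p * q)) := ZMod.coe_unitOfCoprime c hc
  have h1 : ∑ x : ZMod (p * q), jacobiSym (x.val : ℤ) (p * q) =
      ∑ x : ZMod (p * q), jacobiSym (((cu : ZMod (p * q)) * x).val : ℤ) (p * q) :=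
    (Equiv.sum_comp (Units.mulLeft cu) (fun x : ZMod (p * q) => jacobiSym (x.val : ℤ) (p * q))).symm
  have h2 : ∀ x : ZMod (p * q), jacobiSym (((cu : ZMod (p * q)) * x).val : ℤ) (p * q) =
      - jacobiSym (x.val : ℤ) (p * q) := by
    intro x
    have h3 : ((cu : ZMod (p * q)) * x) = (((c : ℤ) * (x.val : ℤ) : ℤ) : ZMod (p * q)) := by
      push_cast
      rw [ZMod.natCast_zmod_val, hcu]
    rw [h3, ← jval (p * q), jacobiSym.mul_left, hJ]
    ring
  rw [Finset.sum_congr rfl (fun x _ => h2 x), Finset.sum_neg_distrib] at h1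
  omega

/-- the sum over a complete period -/
theorem sumper (m : ℕ) [NeZero m] (A : ℤ) :
    ∑ i ∈ range m, jacobiSym (A + (i : ℤ)) m = ∑ x : ZMod m, jacobiSym (x.val : ℤ) m := by
  refine Finset.sum_nbij' (fun i : ℕ => ((A + (i : ℤ) : ℤ) : ZMod m))
    (fun x : ZMod m => (x - (A : ZMod m)).val) ?_ ?_ ?_ ?_ ?_
  · intro i _
    exact mem_univ _
  · intro x _
    exact mem_range.2 (ZMod.val_lt _)
  · intro i hi
    have : (((A + (i : ℤ) : ℤ) : ZMod m) - (A : ZMod m)) = (i : ZMod m) := by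
      push_cast
      ring
    show (((A + (i : ℤ) : ℤ) : ZMod m) - (A : ZMod m)).val = i
    rw [this, ZMod.val_natCast_of_lt (mem_range.1 hi)]
  · intro x _
    show (((A + (((x - (A : ZMod m)).val : ℕ) : ℤ) : ℤ)) : ZMod m) = x
    push_cast
    rw [ZMod.natCast_zmod_val]
    ring
  · intro i _
    exact jval m _

/-- short sums of a periodic function with mean zero -/
theorem shortsum (m : ℕ) [NeZero m] (h0 : ∑ x : ZMod m, jacobiSym (x.val : ℤ) m = 0) (n : ℕ) :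
    ∀ A : ℤ, |∑ i ∈ range n, jacobiSym (A + (i : ℤ)) m| ≤ (m : ℤ) := by
  induction n using Nat.strong_induction_on with
  | _ n ih =>
    intro A
    by_cases hn : n < m
    · calc |∑ i ∈ range n, jacobiSym (A + (i : ℤ)) m| ≤ ∑ i ∈ range n, |jacobiSym (A + (i : ℤ)) m| :=
            Finset.abs_sum_le_sum_abs _ _
        _ ≤ ∑ i ∈ range n, (1 : ℤ) := by
            refine Finset.sum_le_sum ?_
            intro i _
            rcases jacobiSym.trichotomy (A + (i : ℤ)) m with h | h | h <;> rw [h] <;> norm_num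
        _ = (n : ℤ) := by simp
        _ ≤ (m : ℤ) := by exact_mod_cast hn.le
    · have hm : 0 < m := Nat.pos_of_ne_zero (NeZero.ne m)
      push Not at hn
      obtain ⟨k, rfl⟩ := Nat.exists_eq_add_of_le hn
      rw [Finset.sum_range_add, sumper, h0, zero_add]
      have := ih k (by omega) (A + m)
      refine le_trans (le_of_eq ?_) this
      congr 1
      refine Finset.sum_congr rfl ?_
      intro i _
      congr 1
      push_cast
      ring

/-- the character sum over the interval -/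
theorem csum (T : ℕ) (p q : ℕ) (hp : p.Prime) (hq : q.Prime) (hp2 : p ≠ 2) (hpq : p ≠ q) :
    |∑ a ∈ Icc (-(T : ℤ)) T, ((jacobiSym a (p * q) : ℤ) : ℝ)| ≤ ((p * q : ℕ) : ℝ) := by
  haveI : NeZero (p * q) := ⟨Nat.mul_ne_zero hp.ne_zero hq.ne_zero⟩
  have h := shortsum (p * q) (sumz p q hp hq hp2 hpq) (2 * T + 1) (-(T : ℤ))
  have h2 : ∑ a ∈ Icc (-(T : ℤ)) T, jacobiSym a (p * q) =
      ∑ i ∈ range (2 * T + 1), jacobiSym (-(T : ℤ) + (i : ℤ)) (p * q) := by
    refine Finset.sum_nbij' (fun a : ℤ => (a + T).toNat) (fun i : ℕ => -(T : ℤ) + i) ?_ ?_ ?_ ?_ ?_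
    · intro a ha
      rw [mem_Icc] at ha
      rw [mem_range]
      show (a + T).toNat < 2 * T + 1
      omega
    · intro i hi
      rw [mem_range] at hi
      rw [mem_Icc]
      constructor <;> omega
    · intro a ha
      rw [mem_Icc] at ha
      show -(T : ℤ) + ((a + T).toNat : ℤ) = a
      omega
    · intro i hi
      show (-(T : ℤ) + (i : ℤ) + T).toNat = i
      omega
    · intro a ha
      rw [mem_Icc] at ha
      show jacobiSym a (p * q) = jacobiSym (-(T : ℤ) + ((a + T).toNat : ℤ)) (p * q)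
      congr 1
      omega
  rw [← h2] at h
  exact_mod_cast h

/-- the bound for one pair of primes -/
theorem pairb (T p q : ℕ) (hp : p.Prime) (hq : q.Prime) (hp2 : p ≠ 2) :
    ∑ a ∈ Icc (-(T : ℤ)) T, ∑ b ∈ Icc (-(T : ℤ)) T,
      (if (p : ℤ) ∣ a - b then ((jacobiSym a p : ℤ) : ℝ) else 0) *
      (if (q : ℤ) ∣ a - b then ((jacobiSym a q : ℤ) : ℝ) else 0) ≤
      (if p = q then (2 * (T : ℝ) + 1) ^ 2 * (1 / (p : ℝ)) else 0) + 2 * (2 * (T : ℝ) + 1) := by
  have hN : (0 : ℝ) < 2 * (T : ℝ) + 1 := by positivity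
  have hcardI : ((Icc (-(T : ℤ)) T).card : ℝ) = 2 * (T : ℝ) + 1 := by
    rw [Int.card_Icc]
    have : ((T : ℤ) + 1 - -(T : ℤ)).toNat = 2 * T + 1 := by omega
    rw [this]
    push_cast
    ring
  by_cases hpq : p = q
  · subst hpq
    rw [if_pos rfl]
    have h1 : ∀ a ∈ Icc (-(T : ℤ)) T, ∑ b ∈ Icc (-(T : ℤ)) T,
        (if (p : ℤ) ∣ a - b then ((jacobiSym a p : ℤ) : ℝ) else 0) *
        (if (p : ℤ) ∣ a - b then ((jacobiSym a p : ℤ) : ℝ) else 0) ≤
        (2 * (T : ℝ) + 1) / p + 1 := by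
      intro a _
      have h2 := (abs_le.1 (cnt T p hp.pos a)).2
      have h3 : ∑ b ∈ Icc (-(T : ℤ)) T,
        (if (p : ℤ) ∣ a - b then ((jacobiSym a p : ℤ) : ℝ) else 0) *
        (if (p : ℤ) ∣ a - b then ((jacobiSym a p : ℤ) : ℝ) else 0) ≤
          ∑ b ∈ Icc (-(T : ℤ)) T, (if (p : ℤ) ∣ a - b then (1 : ℝ) else 0) := by
        refine Finset.sum_le_sum ?_
        intro b _
        by_cases hd : (p : ℤ) ∣ a - b
        · rw [if_pos hd, if_pos hd]
          rcases jacobiSym.trichotomy a p with h | h | h <;> rw [h] <;> norm_num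
        · rw [if_neg hd, if_neg hd]
          norm_num
      rw [← Finset.sum_filter, Finset.sum_const, nsmul_eq_mul, mul_one] at h3
      linarith
    calc _ ≤ ∑ a ∈ Icc (-(T : ℤ)) T, ((2 * (T : ℝ) + 1) / p + 1) := Finset.sum_le_sum h1
      _ = (2 * (T : ℝ) + 1) * ((2 * (T : ℝ) + 1) / p + 1) := by
          rw [Finset.sum_const, nsmul_eq_mul, hcardI]
      _ ≤ (2 * (T : ℝ) + 1) ^ 2 * (1 / (p : ℝ)) + 2 * (2 * (T : ℝ) + 1) := by
          have : (2 * (T : ℝ) + 1) * ((2 * (T : ℝ) + 1) / p + 1) =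
            (2 * (T : ℝ) + 1) ^ 2 * (1 / (p : ℝ)) + (2 * (T : ℝ) + 1) := by ring
          rw [this]
          linarith
  · rw [if_neg hpq, zero_add]
    have hco : Nat.Coprime p q := (Nat.coprime_primes hp hq).2 hpq
    haveI : NeZero p := ⟨hp.ne_zero⟩
    haveI : NeZero q := ⟨hq.ne_zero⟩
    have hm : 0 < p * q := Nat.mul_pos hp.pos hq.pos
    have h1 : ∀ a ∈ Icc (-(T : ℤ)) T, ∑ b ∈ Icc (-(T : ℤ)) T,
        (if (p : ℤ) ∣ a - b then ((jacobiSym a p : ℤ) : ℝ) else 0) *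
        (if (q : ℤ) ∣ a - b then ((jacobiSym a q : ℤ) : ℝ) else 0) =
        ((jacobiSym a (p * q) : ℤ) : ℝ) *
          (((Icc (-(T : ℤ)) T).filter (fun b : ℤ => ((p * q : ℕ) : ℤ) ∣ a - b)).card : ℝ) := by
      intro a _
      have h3 : ∀ b ∈ Icc (-(T : ℤ)) T,
        (if (p : ℤ) ∣ a - b then ((jacobiSym a p : ℤ) : ℝ) else 0) *
        (if (q : ℤ) ∣ a - b then ((jacobiSym a q : ℤ) : ℝ) else 0) =
        (if ((p * q : ℕ) : ℤ) ∣ a - b then ((jacobiSym a (p * q) : ℤ) : ℝ) else 0) := by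
        intro b _
        have hiff : ((p * q : ℕ) : ℤ) ∣ a - b ↔ (p : ℤ) ∣ a - b ∧ (q : ℤ) ∣ a - b := by
          constructor
          · intro h
            push_cast at h
            exact ⟨(Dvd.intro _ rfl).trans h, (Dvd.intro_left _ rfl).trans h⟩
          · rintro ⟨h4, h5⟩
            push_cast
            exact IsCoprime.mul_dvd (Nat.isCoprime_iff_coprime.2 hco) h4 h5
        by_cases hd1 : (p : ℤ) ∣ a - b
        · by_cases hd2 : (q : ℤ) ∣ a - b
          · rw [if_pos hd1, if_pos hd2, if_pos (hiff.2 ⟨hd1, hd2⟩), jacobiSym.mul_right]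
            push_cast
            ring
          · rw [if_neg hd2, if_neg (fun h => hd2 (hiff.1 h).2), mul_zero]
        · rw [if_neg hd1, if_neg (fun h => hd1 (hiff.1 h).1), zero_mul]
      rw [Finset.sum_congr rfl h3, ← Finset.sum_filter, Finset.sum_const, nsmul_eq_mul, mul_comm]
    rw [Finset.sum_congr rfl h1]
    have h2 : ∀ a ∈ Icc (-(T : ℤ)) T, ((jacobiSym a (p * q) : ℤ) : ℝ) *
          (((Icc (-(T : ℤ)) T).filter (fun b : ℤ => ((p * q : ℕ) : ℤ) ∣ a - b)).card : ℝ) ≤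
          ((jacobiSym a (p * q) : ℤ) : ℝ) * ((2 * (T : ℝ) + 1) / ((p * q : ℕ) : ℝ)) + 1 := by
      intro a _
      have h3 := abs_le.1 (cnt T (p * q) hm a)
      obtain ⟨h4, h5⟩ := h3
      rcases jacobiSym.trichotomy a (p * q) with h | h | h
      · rw [h]
        simp
      · rw [h]
        push_cast at h4 h5 ⊢
        linarith
      · rw [h]
        push_cast at h4 h5 ⊢
        linarith
    refine (Finset.sum_le_sum h2).trans ?_
    rw [Finset.sum_add_distrib, ← Finset.sum_mul, Finset.sum_const, nsmul_eq_mul, mul_one, hcardI]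
    have h6 := (abs_le.1 (csum T p q hp hq hp2 hpq)).2
    have hmr : (0 : ℝ) < ((p * q : ℕ) : ℝ) := by exact_mod_cast hm
    have h7 : (∑ a ∈ Icc (-(T : ℤ)) T, ((jacobiSym a (p * q) : ℤ) : ℝ)) *
        ((2 * (T : ℝ) + 1) / ((p * q : ℕ) : ℝ)) ≤
        ((p * q : ℕ) : ℝ) * ((2 * (T : ℝ) + 1) / ((p * q : ℕ) : ℝ)) :=
      mul_le_mul_of_nonneg_right h6 (by positivity)
    have h8 : ((p * q : ℕ) : ℝ) * ((2 * (T : ℝ) + 1) / ((p * q : ℕ) : ℝ)) = 2 * (T : ℝ) + 1 := by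
      field_simp
    linarith

/-- the number of odd primes -/
theorem cardPP (y : ℕ) : (PP y).card ≤ y := by
  have : PP y ⊆ Finset.Icc 1 y := by
    intro p hp
    rw [PP, mem_filter, mem_range] at hp
    rw [mem_Icc]
    exact ⟨hp.2.1.pos, by omega⟩
  have h := Finset.card_le_card this
  simpa using h

/-- CHR -/
theorem chr_thm : CHR := by
  intro y T
  have h1 : ∀ a b : ℤ, VV y a b ^ 2 = ∑ p ∈ PP y, ∑ q ∈ PP y,
      (if (p : ℤ) ∣ a - b then ((jacobiSym a p : ℤ) : ℝ) else 0) *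
      (if (q : ℤ) ∣ a - b then ((jacobiSym a q : ℤ) : ℝ) else 0) := by
    intro a b
    rw [VV, Finset.sum_filter, sq, Finset.sum_mul_sum]
  have h2 : ∑ a ∈ Icc (-(T : ℤ)) T, ∑ b ∈ Icc (-(T : ℤ)) T, VV y a b ^ 2 =
      ∑ p ∈ PP y, ∑ q ∈ PP y, ∑ a ∈ Icc (-(T : ℤ)) T, ∑ b ∈ Icc (-(T : ℤ)) T,
      (if (p : ℤ) ∣ a - b then ((jacobiSym a p : ℤ) : ℝ) else 0) *
      (if (q : ℤ) ∣ a - b then ((jacobiSym a q : ℤ) : ℝ) else 0) := by
    simp only [h1]
    calc _ = ∑ a ∈ Icc (-(T : ℤ)) T, ∑ p ∈ PP y, ∑ b ∈ Icc (-(T : ℤ)) T, ∑ q ∈ PP y,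
      (if (p : ℤ) ∣ a - b then ((jacobiSym a p : ℤ) : ℝ) else 0) *
      (if (q : ℤ) ∣ a - b then ((jacobiSym a q : ℤ) : ℝ) else 0) := by
          refine Finset.sum_congr rfl ?_
          intro a _
          exact Finset.sum_comm
      _ = ∑ p ∈ PP y, ∑ a ∈ Icc (-(T : ℤ)) T, ∑ b ∈ Icc (-(T : ℤ)) T, ∑ q ∈ PP y,
      (if (p : ℤ) ∣ a - b then ((jacobiSym a p : ℤ) : ℝ) else 0) *
      (if (q : ℤ) ∣ a - b then ((jacobiSym a q : ℤ) : ℝ) else 0) := Finset.sum_comm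
      _ = _ := by
          refine Finset.sum_congr rfl ?_
          intro p _
          rw [Finset.sum_comm]
          calc _ = ∑ b ∈ Icc (-(T : ℤ)) T, ∑ q ∈ PP y, ∑ a ∈ Icc (-(T : ℤ)) T,
              (if (p : ℤ) ∣ a - b then ((jacobiSym a p : ℤ) : ℝ) else 0) *
              (if (q : ℤ) ∣ a - b then ((jacobiSym a q : ℤ) : ℝ) else 0) := by
                refine Finset.sum_congr rfl ?_
                intro b _
                exact Finset.sum_comm
            _ = ∑ q ∈ PP y, ∑ b ∈ Icc (-(T : ℤ)) T, ∑ a ∈ Icc (-(T : ℤ)) T,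
              (if (p : ℤ) ∣ a - b then ((jacobiSym a p : ℤ) : ℝ) else 0) *
              (if (q : ℤ) ∣ a - b then ((jacobiSym a q : ℤ) : ℝ) else 0) := Finset.sum_comm
            _ = _ := by
                refine Finset.sum_congr rfl ?_
                intro q _
                exact Finset.sum_comm
  rw [h2]
  have h3 : ∀ p ∈ PP y, ∀ q ∈ PP y, ∑ a ∈ Icc (-(T : ℤ)) T, ∑ b ∈ Icc (-(T : ℤ)) T,
      (if (p : ℤ) ∣ a - b then ((jacobiSym a p : ℤ) : ℝ) else 0) *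
      (if (q : ℤ) ∣ a - b then ((jacobiSym a q : ℤ) : ℝ) else 0) ≤
      (if p = q then (2 * (T : ℝ) + 1) ^ 2 * (1 / (p : ℝ)) else 0) + 2 * (2 * (T : ℝ) + 1) := by
    intro p hp q hq
    rw [PP, mem_filter] at hp hq
    exact pairb T p q hp.2.1 hq.2.1 hp.2.2
  refine (Finset.sum_le_sum (fun p hp => Finset.sum_le_sum (fun q hq => h3 p hp q hq))).trans ?_
  have h4 : ∀ p ∈ PP y, ∑ q ∈ PP y,
      ((if p = q then (2 * (T : ℝ) + 1) ^ 2 * (1 / (p : ℝ)) else 0) + 2 * (2 * (T : ℝ) + 1)) =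
      (2 * (T : ℝ) + 1) ^ 2 * (1 / (p : ℝ)) + (PP y).card * (2 * (2 * (T : ℝ) + 1)) := by
    intro p hp
    rw [Finset.sum_add_distrib, Finset.sum_ite_eq, if_pos hp, Finset.sum_const, nsmul_eq_mul]
  rw [Finset.sum_congr rfl h4, Finset.sum_add_distrib, Finset.sum_const, nsmul_eq_mul,
    ← Finset.mul_sum]
  have h5 : ((PP y).card : ℝ) ≤ y := by exact_mod_cast cardPP y
  have h6 : (0 : ℝ) ≤ ((PP y).card : ℝ) := by positivity
  have h7 : ((PP y).card : ℝ) * ((PP y).card * (2 * (2 * (T : ℝ) + 1))) ≤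
      3 * (2 * (T : ℝ) + 1) * (y : ℝ) ^ 2 := by
    have h8 : ((PP y).card : ℝ) ^ 2 ≤ (y : ℝ) ^ 2 := by
      exact pow_le_pow_left₀ h6 h5 2
    have h9 : (0 : ℝ) ≤ 2 * (T : ℝ) + 1 := by positivity
    nlinarith [mul_le_mul_of_nonneg_left h8 h9, mul_nonneg h9 (sq_nonneg (y : ℝ))]
  have h10 : ∑ p ∈ PP y, (1 : ℝ) / (p : ℝ) = LL y := rfl
  rw [h10]
  linarith

end Pool.Agent.W377.LSD
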